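import Pool.Agent.Lib.MP_80aaf5_lc.helper83.Enc

/-!
# The pair, and its NP-hardness
-/

namespace ESY.Conv

open ESY

/-! ### polynomially bounded functions -/

/-- bounded by one of the functions `poly c` -/
def PB (g : ℕ → ℕ) : Prop := ∃ c, ∀ n, g n ≤ poly c n

theorem PB.mono {g h : ℕ → ℕ} (hh : PB h) (H : ∀ n, g n ≤ h n) : PB g := by
  obtain ⟨c, hc⟩ := hh
  exact ⟨c, fun n => (H n).trans (hc n)⟩

theorem PB.const (k : ℕ) : PB fun _ => k := ⟨k, fun _ => Nat.le_add_left _ _⟩

theorem PB.id : PB fun n => n := ⟨1, fun n => by simp [poly]⟩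

theorem PB.poly (c : ℕ) : PB fun n => poly c n := ⟨c, fun _ => le_rfl⟩

theorem poly_zero_le (c : ℕ) : ESY.poly c 0 ≤ c + 1 := by
  unfold ESY.poly
  rcases c with _ | c <;> simp

theorem poly_one (c : ℕ) : ESY.poly c 1 = c + 1 := by
  unfold ESY.poly
  rw [one_pow]; ring

theorem poly_le_two_mul (c n : ℕ) (hn : 2 ≤ n) : ESY.poly c n ≤ 2 * n ^ c := by
  unfold ESY.poly
  have h1 : c < 2 ^ c := Nat.lt_two_pow_self
  have h2 : 2 ^ c ≤ n ^ c := Nat.pow_le_pow_left hn c
  omega

theorem PB.mul {g h : ℕ → ℕ} (hg : PB g) (hh : PB h) : PB fun n => g n * h n := by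
  obtain ⟨a, ha⟩ := hg
  obtain ⟨b, hb⟩ := hh
  refine ⟨(a + 1) * (b + 1) + a + b + 2, fun n => (Nat.mul_le_mul (ha n) (hb n)).trans ?_⟩
  rcases n with _ | _ | n
  · have h1 := Nat.mul_le_mul (poly_zero_le a) (poly_zero_le b)
    refine h1.trans ?_
    unfold ESY.poly
    generalize (0 : ℕ) ^ ((a + 1) * (b + 1) + a + b + 2) = z
    omega
  · rw [Nat.zero_add, poly_one, poly_one]
    unfold ESY.poly
    nlinarith [Nat.zero_le ((1:ℕ) ^ ((a + 1) * (b + 1) + a + b + 2))]
  · have h1 := Nat.mul_le_mul (poly_le_two_mul a (n + 2) (by omega))
      (poly_le_two_mul b (n + 2) (by omega))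
    refine h1.trans ?_
    unfold ESY.poly
    have h2 : 2 * (n + 2) ^ a * (2 * (n + 2) ^ b) = 2 ^ 2 * (n + 2) ^ (a + b) := by
      rw [pow_add]; ring
    have h3 : 2 ^ 2 ≤ (n + 2) ^ 2 := Nat.pow_le_pow_left (by omega) 2
    have h4 : (n + 2) ^ 2 * (n + 2) ^ (a + b) ≤ (n + 2) ^ ((a + 1) * (b + 1) + a + b + 2) := by
      rw [← pow_add]
      exact Nat.pow_le_pow_right (by omega) (by nlinarith)
    rw [h2]
    calc 2 ^ 2 * (n + 2) ^ (a + b) ≤ (n + 2) ^ 2 * (n + 2) ^ (a + b) :=
          Nat.mul_le_mul_right _ h3
      _ ≤ _ := h4
      _ ≤ _ := Nat.le_add_right _ _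

theorem PB.add {g h : ℕ → ℕ} (hg : PB g) (hh : PB h) : PB fun n => g n + h n := by
  have h1 : PB fun n => (g n + 1) * (h n + 1) := by
    obtain ⟨a, ha⟩ := hg
    obtain ⟨b, hb⟩ := hh
    have key : ∀ (f : ℕ → ℕ) (d : ℕ), (∀ n, f n ≤ ESY.poly d n) →
        ∀ n, f n + 1 ≤ ESY.poly (d + 2) n := by
      intro f d hd n
      have := hd n
      rcases n with _ | n
      · have h2 := poly_zero_le d
        have h3 : ESY.poly (d + 2) 0 = d + 2 := by
          unfold ESY.poly
          simp
        omega
      · unfold ESY.poly at *
        have : (n + 1) ^ d ≤ (n + 1) ^ (d + 2) := Nat.pow_le_pow_right (by omega) (by omega)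
        omega
    exact PB.mul ⟨a + 2, key g a ha⟩ ⟨b + 2, key h b hb⟩
  refine h1.mono fun n => ?_
  nlinarith [Nat.zero_le (g n * h n)]

/-! ### the pair -/

/-- strings with a certificate of kind `b` -/
def side (O : Oracle) (b : Bool) : Set (List Bool) :=
  {q | ∃ w, O (true :: false :: true :: true :: b :: app w (false :: q)) = true}

variable {X : Oracle} {m : ℕ → ℕ} {D : List Bool → Cell}

theorem bl_length (a : ℕ) : ∀ n, (bl a n).length = n := by
  intro n
  induction n with
  | zero => rfl
  | succ n ih => simp [bl, ih]

/-- what a positive certificate string means -/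
theorem side_true (b : Bool) (w q : List Bool) :
    Or X m D (true :: false :: true :: true :: b :: app w (false :: q)) = true ↔
      (q = [] ∧ b = true) ∨ (q = [false] ∧ b = false) ∨
      ∃ i u, q ≠ [] ∧ q ≠ [false] ∧ par q = (i + 2, true :: u) ∧ i < m u.length ∧ K X m D u ∧
        (D u).y.testBit i = b ∧ ∃ a ∈ (D u).z :: (D u).zs, w = bl a (m u.length) := by
  rw [Or_true]
  by_cases h1 : q = []
  · subst h1
    have : kd X m (true :: false :: true :: true :: b :: app w [false]) = .fix b := by
      simp only [kd, un_app', if_true]
    rw [this]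
    simp [act, mt]
  by_cases h2 : q = [false]
  · subst h2
    have : kd X m (true :: false :: true :: true :: b :: app w [false, false]) = .fix (!b) := by
      simp [kd, un_app']
    rw [this]
    cases b <;> simp [act, mt]
  rcases hp : par q with ⟨j, _ | ⟨a, u⟩⟩
  · have : kd X m (true :: false :: true :: true :: b :: app w (false :: q)) = .fix false := by
      simp only [kd, un_app', h1, h2, hp, if_false]
    rw [this]
    simp [act, mt, h1, h2]
  cases a
  · have : kd X m (true :: false :: true :: true :: b :: app w (false :: q)) = .fix false := by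
      simp only [kd, un_app', h1, h2, hp, if_false]
    rw [this]
    simp [act, mt, h1, h2]
  by_cases h3 : 2 ≤ j ∧ j < m u.length + 2
  · have : kd X m (true :: false :: true :: true :: b :: app w (false :: q)) =
        .C b w (j - 2) u := by
      simp only [kd, un_app', h1, h2, hp, if_false]
      rw [if_pos h3]
    rw [this]
    simp only [act, mt, h1, h2, false_and, false_or]
    constructor
    · rintro ⟨hk, hb, hw⟩
      refine ⟨j - 2, u, h1, h2, ?_, by omega, hk, hb, hw⟩
      have : j - 2 + 2 = j := by omega
      rw [this]
    · rintro ⟨i, u', -, -, he, -, hk, hb, hw⟩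
      have e1 := (Prod.mk.inj he).1
      have e2 := (List.cons.inj (Prod.mk.inj he).2).2
      subst e2
      have e3 : i = j - 2 := by omega
      subst e3
      exact ⟨hk, hb, hw⟩
  · have : kd X m (true :: false :: true :: true :: b :: app w (false :: q)) = .fix false := by
      simp only [kd, un_app', h1, h2, hp, if_false]
      rw [if_neg h3]
    rw [this]
    simp only [act, mt, h1, h2, false_and, false_or]
    constructor
    · rintro ⟨-, h⟩
      exact absurd h (by decide)
    · rintro ⟨i, u', -, -, he, hi, -⟩
      have e1 := (Prod.mk.inj he).1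
      have e2 := (List.cons.inj (Prod.mk.inj he).2).2
      subst e2
      exact absurd ⟨by omega, by omega⟩ h3

theorem side_disjoint : Disjoint (side (Or X m D) true) (side (Or X m D) false) := by
  rw [Set.disjoint_left]
  rintro q ⟨w, hw⟩ ⟨w', hw'⟩
  rw [side_true] at hw hw'
  rcases hw with ⟨h1, -⟩ | ⟨h1, h2⟩ | ⟨i, u, h1, h2, hp, -, -, hb, -⟩
  · rcases hw' with ⟨-, h⟩ | ⟨h, -⟩ | ⟨i, u, h, -⟩
    · exact absurd h (by decide)
    · rw [h1] at h
      exact absurd h (by simp)
    · exact h h1
  · exact absurd h2 (by decide)
  · rcases hw' with ⟨h, -⟩ | ⟨h, -⟩ | ⟨i', u', -, -, hp', -, -, hb', -⟩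
    · exact h1 h
    · exact h2 h
    · rw [hp] at hp'
      have e1 := (Prod.mk.inj hp').1
      have e2 := (List.cons.inj (Prod.mk.inj hp').2).2
      have e3 : i = i' := by omega
      subst e2 e3
      rw [hb] at hb'
      exact absurd hb' (by decide)

theorem side_nonempty (b : Bool) : (side (Or X m D) b).Nonempty := by
  cases b
  · exact ⟨[false], [], (side_true _ _ _).2 (Or.inr (Or.inl ⟨rfl, rfl⟩))⟩
  · exact ⟨[], [], (side_true _ _ _).2 (Or.inl ⟨rfl, rfl⟩)⟩

theorem side_short (hm : ∀ l, m l ≤ l) (b : Bool) (q : List Bool)
    (h : q ∈ side (Or X m D) b) : ∃ w : List Bool, w.length ≤ q.length ∧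
      Or X m D (true :: false :: true :: true :: b :: app w (false :: q)) = true := by
  obtain ⟨w, hw⟩ := h
  have hw0 := hw
  rw [side_true] at hw
  rcases hw with ⟨h1, h2⟩ | ⟨h1, h2⟩ | ⟨i, u, h1, h2, hp, hi, hk, hb, hz⟩
  · exact ⟨[], by simp, (side_true _ _ _).2 (Or.inl ⟨h1, h2⟩)⟩
  · exact ⟨[], by simp, (side_true _ _ _).2 (Or.inr (Or.inl ⟨h1, h2⟩))⟩
  · refine ⟨w, ?_, hw0⟩
    have hl : w.length = m u.length := by
      obtain ⟨a, -, hz⟩ := hz
      rw [hz, bl_length]
    have h3 := par_len q
    rw [hp] at h3
    simp only [List.length_cons] at h3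
    have := hm u.length
    omega

theorem PB_lin : PB fun n => 3 * n + 8 :=
  (((PB.const 3).mul PB.id).add (PB.const 8)).mono fun _ => le_rfl

theorem inNP_side (hm : ∀ l, m l ≤ l) (b : Bool) : InNP (Or X m D) (side (Or X m D) b) := by
  obtain ⟨c, hc⟩ := PB_lin
  refine ⟨mk2 (vmCode true b), c, fun q => ⟨fun h => ?_, ?_⟩⟩
  · obtain ⟨w, hl, hw⟩ := side_short hm b q h
    have h3 : 3 * q.length + 8 ≤ ESY.poly c q.length := hc q.length
    refine ⟨w, by omega, (vm_accepts_of_le _ true b q w _ (by omega)).2 hw⟩
  · rintro ⟨w, -, hw⟩
    exact ⟨w, vm_sound _ true b q w _ hw⟩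

/-- The pair is hard for `NP` by nonadaptive reductions with few questions: for every language
of `NP` there are a machine `M` and lists `q x` of at most `f (poly c |x|)` strings, such that
with every second oracle `S` the machine asks `S` exactly the questions `q x` on input `x`, and
decides the language if `S` is a separator of the pair. -/
def HardTT (f : ℕ → ℕ) (O : Oracle) (A B : Set (List Bool)) : Prop :=
  ∀ L, InNP O L → ∃ (M : Machine) (c : ℕ) (q : List Bool → List (List Bool)),
    (∀ x, (q x).length ≤ f (poly c x.length)) ∧
    ∀ S : Oracle, (∀ x, sep (asked (join O S) M (poly c x.length) (start M x [])) = q x) ∧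
      (Separator A B S → ∀ x, x ∈ L ↔ AcceptsIn (join O S) M x [] (poly c x.length))

/-- a separator gives the right bits -/
theorem ans_sep {S : Oracle} {u : List Bool} (hk : K X m D u)
    (hS : Separator (side (Or X m D) true) (side (Or X m D) false) S) :
    ∀ i, i ≤ m u.length → ans S (false :: true :: u) i = bl (D u).y i := by
  intro i
  induction i with
  | zero => intro _; rfl
  | succ i ih =>
    intro hi
    have hq1 : List.replicate (i + 2) true ++ false :: true :: u ≠ [] := by simp
    have hq2 : List.replicate (i + 2) true ++ false :: true :: u ≠ [false] := by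
      intro h
      have := congrArg List.length h
      simp only [List.length_append, List.length_replicate, List.length_cons,
        List.length_nil] at this
      omega
    have key : ∀ b, (D u).y.testBit i = b →
        List.replicate (i + 2) true ++ false :: true :: u ∈ side (Or X m D) b := by
      intro b hb
      refine ⟨bl (D u).z (m u.length), ?_⟩
      rw [side_true]
      exact Or.inr (Or.inr ⟨i, u, hq1, hq2, par_rep _ _, by omega, hk, hb, _,
        List.mem_cons_self, rfl⟩)
    show S (List.replicate (i + 2) true ++ false :: true :: u) :: ans S _ i =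
      (D u).y.testBit i :: bl (D u).y i
    rw [ih (by omega)]
    congr 1
    cases hb : (D u).y.testBit i
    · exact hS.2 _ (key false hb)
    · exact hS.1 _ (key true hb)

theorem qst_length (r : List Bool) (n : ℕ) : (qst r n).length = n := by simp [qst]

/-- time and size bounds of the reduction are polynomial -/
theorem bounds (e c : ℕ) : ∃ c' : ℕ, ∀ n : ℕ,
    15 * ((poly c n + 1) * (n + 2 * poly c n + 2)) + 12 * n + 12 * e + 100 ≤ poly c' n := by
  have h1 : PB fun n => (poly c n + 1) * (n + 2 * poly c n + 2) :=
    ((PB.poly c).add (PB.const 1)).mul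
      ((PB.id.add ((PB.const 2).mul (PB.poly c))).add (PB.const 2))
  exact ((((PB.const 15).mul h1).add ((PB.const 12).mul PB.id)).add
    (PB.const (12 * e))).add (PB.const 100)

/-- The pair is hard. -/
theorem hard {f : ℕ → ℕ} (hf : Monotone f) (hm : ∀ l, m l ≤ l) (hmf : ∀ l, m l ≤ f l) :
    HardTT f (Or X m D) (side (Or X m D) true) (side (Or X m D) false) := by
  rintro L ⟨M, c, hL⟩
  obtain ⟨e, he⟩ := mc_surj (M, c)
  obtain ⟨c', hc'⟩ := bounds e c
  have hpar : ∀ x : List Bool, par (List.replicate e true ++ false :: x) = (e, x) :=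
    fun x => par_rep e x
  have htm : ∀ x : List Bool, tm (List.replicate e true ++ false :: x) = poly c x.length := by
    intro x
    unfold tm
    rw [hpar, he]
  have hJ : ∀ x : List Bool, J (List.replicate e true ++ false :: x) =
      (poly c x.length + 1) * (x.length + 2 * poly c x.length + 2) := by
    intro x
    unfold J
    rw [htm, hpar]
  have hlen : ∀ x : List Bool, (code (List.replicate e true ++ false :: x)).length =
      J (List.replicate e true ++ false :: x) + 5 + e + x.length := by
    intro x
    rw [code_len]
    simp only [List.length_append, List.length_replicate, List.length_cons]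
    ring
  have hb : ∀ x : List Bool, 15 * J (List.replicate e true ++ false :: x) + 12 * x.length +
      12 * e + 100 ≤ poly c' x.length := by
    intro x
    rw [hJ]
    exact hc' x.length
  refine ⟨pr red e, c', fun x => qst (false :: true :: code (List.replicate e true ++ false :: x))
    (m (code (List.replicate e true ++ false :: x)).length), fun x => ?_, fun S => ?_⟩
  · rw [qst_length]
    refine (hmf _).trans (hf ?_)
    rw [hlen]
    have := hb x
    omega
  have key : ∀ x : List Bool,
      (AcceptsIn (join (Or X m D) S) red (List.replicate e true ++ false :: x) []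
        (poly c' x.length - e - 1) ↔
        K X m D (code (List.replicate e true ++ false :: x)) ∧
        ∃ a ∈ (D (code (List.replicate e true ++ false :: x))).y ::
            (D (code (List.replicate e true ++ false :: x))).ys,
          ans S (false :: true :: code (List.replicate e true ++ false :: x))
            (m (code (List.replicate e true ++ false :: x)).length) =
          bl a (m (code (List.replicate e true ++ false :: x)).length)) ∧
      sep (asked (join (Or X m D) S) red (poly c' x.length - e - 1)
        (start red (List.replicate e true ++ false :: x) [])) =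
        qst (false :: true :: code (List.replicate e true ++ false :: x))
          (m (code (List.replicate e true ++ false :: x)).length) := by
    intro x
    have hM := hm (code (List.replicate e true ++ false :: x)).length
    have h := red_correct (O := join (Or X m D) S) (List.replicate e true ++ false :: x)
      (J (List.replicate e true ++ false :: x))
      (m (code (List.replicate e true ++ false :: x)).length)
      (fun i hi => by
        show Or X m D (List.replicate (i + 2) true ++ false :: false :: _) = false
        rw [← Bool.not_eq_true, Or_true, kd_ruler1]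
        simp only [mt, decide_eq_true_eq]
        omega)
      (by
        show Or X m D (List.replicate _ true ++ false :: false :: _) = true
        rw [Or_true, kd_ruler1]
        simp [act, mt])
      (code (List.replicate e true ++ false :: x)) rfl
      (fun i hi => by
        show Or X m D (List.replicate (i + 2) true ++ false :: true :: _) = false
        rw [← Bool.not_eq_true, Or_true, kd_ruler2]
        simp only [mt, decide_eq_true_eq]
        omega)
      (by
        show Or X m D (List.replicate _ true ++ false :: true :: _) = true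
        rw [Or_true, kd_ruler2]
        simp [act, mt])
      (poly c' x.length - e - 1) (by
        have h1 := hb x
        have h2 := hlen x
        omega)
    refine ⟨h.1.trans ?_, h.2⟩
    show Or X m D (true :: false :: true :: false :: _) = true ↔ _
    rw [Or_true, kd_V]
    rfl
  have hsub : ∀ x : List Bool, poly c' x.length - e - 1 + e + 1 = poly c' x.length := by
    intro x
    have := hb x
    omega
  refine ⟨fun x => ?_, fun hS x => ?_⟩
  · rw [← hsub x, asked_pr]
    exact (key x).2
  · rw [← hsub x, accepts_pr, (key x).1]
    have hx : x ∈ L ↔ K X m D (code (List.replicate e true ++ false :: x)) := by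
      rw [hL x, K_eq]
      constructor
      · rintro ⟨w, hw, ha⟩
        refine ⟨_, rfl, w, ?_, ?_⟩
        · rw [htm]; exact hw
        · rw [htm, hpar, he]
          exact ha
      · rintro ⟨v, hv, w, hw, ha⟩
        have hv' := code_inj hv
        subst hv'
        rw [htm] at hw
        rw [htm, hpar, he] at ha
        exact ⟨w, hw, ha⟩
    rw [hx]
    constructor
    · intro hk
      exact ⟨hk, _, List.mem_cons_self, ans_sep hk hS _ le_rfl⟩
    · exact fun h => h.1

end ESY.Conv
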