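import Pool.Agent.Lib.MP_80aaf5_lc.helper83.Red
import Pool.Agent.Lib.MP_80aaf5_lc.Growth

/-!
# The encoded oracles
-/

namespace ESY.Conv

open ESY

/-- the number of leading bits `1`, and the string after the first bit `0` -/
def par : List Bool → ℕ × List Bool
  | true :: s => ((par s).1 + 1, (par s).2)
  | false :: s => (0, s)
  | [] => (0, [])

theorem par_rep (n : ℕ) (s : List Bool) : par (List.replicate n true ++ false :: s) = (n, s) := by
  induction n with
  | zero => rfl
  | succ n ih =>
    rw [List.replicate_succ, List.cons_append]
    simp only [par, ih]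

theorem par_len : ∀ s : List Bool, (par s).2.length + (par s).1 ≤ s.length := by
  intro s
  induction s with
  | nil => simp [par]
  | cons b s ih =>
    cases b
    · simp [par]
    · simp only [par, List.length_cons]
      omega

/-- inverse of `app`: the marked bits and the rest -/
def un : List Bool → List Bool → List Bool × List Bool
  | acc, true :: b :: s => un (b :: acc) s
  | acc, false :: s => (acc, s)
  | acc, _ => (acc, [])

theorem un_app : ∀ w acc x : List Bool, un acc (app w x) = un (w ++ acc) x := by
  intro w
  induction w with
  | nil => intro acc x; rfl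
  | cons b w ih =>
    intro acc x
    show un acc (app w (true :: b :: x)) = _
    rw [ih]
    rfl

theorem un_app' (w x : List Bool) : un [] (app w (false :: x)) = (w, x) := by
  rw [un_app, List.append_nil]
  rfl

theorem un_len : ∀ (n : ℕ) (acc s : List Bool), s.length ≤ n →
    (un acc s).2.length ≤ s.length := by
  intro n
  induction n with
  | zero =>
    intro acc s h
    have : s = [] := List.length_eq_zero_iff.1 (by omega)
    subst this
    simp [un]
  | succ n ih =>
    intro acc s h
    match s with
    | [] => simp [un]
    | false :: s => simp [un]
    | [true] => simp [un]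
    | true :: b :: s =>
      simp only [un, List.length_cons] at *
      have := ih (b :: acc) s (by omega)
      omega

theorem app_len : ∀ w x : List Bool, (app w x).length = 2 * w.length + x.length := by
  intro w
  induction w with
  | nil => intro x; simp [app]
  | cons b w ih =>
    intro x
    simp only [app]
    rw [ih]
    simp only [List.length_cons]
    ring

/-- an enumeration of the machines with an exponent -/
theorem exists_mc : ∃ f : ℕ → Machine × ℕ, Function.Surjective f := by
  have : Nonempty (Machine × ℕ) := ⟨(red, 0)⟩
  exact exists_surjective_nat _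

/-- an enumeration of the machines with an exponent -/
noncomputable def mc : ℕ → Machine × ℕ := exists_mc.choose

theorem mc_surj : Function.Surjective mc := exists_mc.choose_spec

/-- time bound of the computation coded by `v` -/
noncomputable def tm (v : List Bool) : ℕ := poly (mc (par v).1).2 (par v).2.length

/-- the padding -/
noncomputable def J (v : List Bool) : ℕ := (tm v + 1) * ((par v).2.length + 2 * tm v + 2)

/-- the padded code -/
noncomputable def code (v : List Bool) : List Bool :=
  List.replicate (J v + 2) true ++ false :: false :: v

theorem code_inj {v v' : List Bool} (h : code v = code v') : v = v' := by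
  have h1 := congrArg par h
  unfold code at h1
  rw [par_rep, par_rep] at h1
  have := (Prod.mk.inj h1).2
  exact (List.cons.inj this).2

theorem code_len (v : List Bool) : (code v).length = J v + 4 + v.length := by
  unfold code
  simp only [List.length_append, List.length_replicate, List.length_cons]
  ring

/-- the computation coded by `v` is accepting -/
def Accv (O : Oracle) (v : List Bool) : Prop :=
  ∃ w : List Bool, w.length ≤ tm v ∧ AcceptsIn O (mc (par v).1).1 (par v).2 w (tm v)

/-- the computation with padded code `u` is accepting -/
def Acc (O : Oracle) (u : List Bool) : Prop := ∃ v, u = code v ∧ Accv O v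

/-- the queries of the computation coded by `v` with witness `w` -/
noncomputable def qv (O : Oracle) (v w : List Bool) : List (List Bool) :=
  asked O (mc (par v).1).1 (tm v) (start (mc (par v).1).1 (par v).2 w)

theorem qv_len (O : Oracle) (v w : List Bool) (hw : w.length ≤ tm v) :
    ∀ s ∈ qv O v w, s.length + 1 ≤ (par v).2.length + 2 * tm v + 1 := by
  intro s hs
  have := asked_len O (mc (par v).1).1 (tm v) (start (mc (par v).1).1 (par v).2 w)
    ((par v).2.length + tm v) (start_len _ _ _ _ (by omega) (by omega)) s hs
  omega

theorem qv_card (O : Oracle) (v w : List Bool) : (qv O v w).length ≤ tm v := asked_card _ _ _ _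

theorem J_bound (v : List Bool) :
    (tm v) * ((par v).2.length + 2 * tm v + 1) + ((par v).2.length + 2 * tm v + 2) ≤ J v := by
  unfold J
  ring_nf
  nlinarith

theorem qv_lt (O : Oracle) (v w : List Bool) (hw : w.length ≤ tm v) :
    ∀ s ∈ qv O v w, s.length < (code v).length := by
  intro s hs
  have h1 := qv_len O v w hw s hs
  have h2 := J_bound v
  rw [code_len]
  have : 0 ≤ (tm v) * ((par v).2.length + 2 * tm v + 1) := Nat.zero_le _
  omega

theorem Accv_congr {O O' : Oracle} {v : List Bool}
    (h : ∀ s : List Bool, s.length < (code v).length → O' s = O s) : Accv O' v ↔ Accv O v := by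
  have key : ∀ w : List Bool, w.length ≤ tm v →
      (AcceptsIn O' (mc (par v).1).1 (par v).2 w (tm v) ↔
        AcceptsIn O (mc (par v).1).1 (par v).2 w (tm v)) := by
    intro w hw
    unfold AcceptsIn
    rw [run_congr (O := O) (O' := O') (tm v) _ fun s hs => h s (qv_lt O v w hw s hs)]
  constructor
  · rintro ⟨w, hw, ha⟩
    exact ⟨w, hw, (key w hw).1 ha⟩
  · rintro ⟨w, hw, ha⟩
    exact ⟨w, hw, (key w hw).2 ha⟩

theorem Acc_congr {O O' : Oracle} {u : List Bool}
    (h : ∀ s : List Bool, s.length < u.length → O' s = O s) : Acc O' u ↔ Acc O u := by
  constructor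
  · rintro ⟨v, rfl, ha⟩
    exact ⟨v, rfl, (Accv_congr h).1 ha⟩
  · rintro ⟨v, rfl, ha⟩
    exact ⟨v, rfl, (Accv_congr h).2 ha⟩

/-- the roles of the strings -/
inductive Kind : Type
  | fix (b : Bool)
  | R (s : List Bool)
  | V (w u : List Bool)
  | C (b : Bool) (w : List Bool) (i : ℕ) (u : List Bool)

/-- the role of a string -/
noncomputable def kd (X : Oracle) (m : ℕ → ℕ) : List Bool → Kind
  | false :: s => .fix (X s)
  | true :: true :: s =>
    match (par s).2 with
    | false :: v => .fix (decide (J v ≤ (par s).1))
    | true :: u => .fix (decide (m u.length ≤ (par s).1))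
    | [] => .fix false
  | true :: false :: true :: false :: s =>
    match (par (un [] s).2).2 with
    | true :: u =>
      if (par (un [] s).2).1 = m u.length + 2 then .V (un [] s).1 u else .fix false
    | _ => .fix false
  | true :: false :: false :: true :: true :: s =>
    if (un [] s).1.length = (un [] s).2.length then .R s else .fix false
  | true :: false :: true :: true :: b :: s =>
    if (un [] s).2 = [] then .fix b
    else if (un [] s).2 = [false] then .fix (!b)
    else match (par (un [] s).2).2 with
    | true :: u =>
      if 2 ≤ (par (un [] s).2).1 ∧ (par (un [] s).2).1 < m u.length + 2 then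
        .C b (un [] s).1 ((par (un [] s).2).1 - 2) u
      else .fix false
    | _ => .fix false
  | _ => .fix false

/-- lower bits of a number, the highest one first -/
def bl (a : ℕ) : ℕ → List Bool
  | 0 => []
  | n + 1 => a.testBit n :: bl a n

/-- the data attached to a string -/
structure Cell : Type where
  r : Bool
  y : ℕ
  ys : List ℕ
  z : ℕ
  zs : List ℕ

/-- a string of some role matches the data -/
def mt (m : ℕ → ℕ) (D : List Bool → Cell) : Kind → Prop
  | .fix b => b = true
  | .R s => (D s).r = true
  | .V w u => ∃ a ∈ (D u).y :: (D u).ys, w = bl a (m u.length)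
  | .C b w i u => (D u).y.testBit i = b ∧ ∃ a ∈ (D u).z :: (D u).zs, w = bl a (m u.length)

/-- the code that has to be accepting -/
def act (k : List Bool → Prop) : Kind → Prop
  | .V _ u => k u
  | .C _ _ _ u => k u
  | _ => True

open Classical in
/-- the oracle built from the data, and the set `k` of accepting codes -/
noncomputable def Ok (X : Oracle) (m : ℕ → ℕ) (D : List Bool → Cell) (k : List Bool → Prop) :
    Oracle := fun s => decide (act k (kd X m s) ∧ mt m D (kd X m s))

/-- the set of accepting codes -/
noncomputable def K (X : Oracle) (m : ℕ → ℕ) (D : List Bool → Cell) : List Bool → Prop :=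
  WellFounded.fix (measure List.length).wf fun u rec =>
    Acc (Ok X m D fun u' => ∃ h : u'.length < u.length, rec u' h) u

/-- the oracle -/
noncomputable def Or (X : Oracle) (m : ℕ → ℕ) (D : List Bool → Cell) : Oracle :=
  Ok X m D (K X m D)

/-- length of the data string used by a role -/
def Kind.len : Kind → ℕ
  | .fix _ => 0
  | .R s => s.length
  | .V _ u => u.length
  | .C _ _ _ u => u.length

theorem kd_len (X : Oracle) (m : ℕ → ℕ) : ∀ s : List Bool, (∃ b, kd X m s = .fix b) ∨
    (kd X m s).len < s.length := by
  intro s
  match s with
  | [] => left; exact ⟨_, rfl⟩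
  | false :: s => left; exact ⟨_, rfl⟩
  | true :: true :: s =>
    left
    simp only [kd]
    split <;> exact ⟨_, rfl⟩
  | true :: false :: true :: false :: s =>
    simp only [kd]
    split
    · rename_i u hu
      split_ifs with h
      · right
        have h1 := par_len (un [] s).2
        have h2 := un_len _ [] s le_rfl
        rw [hu] at h1
        simp only [Kind.len, List.length_cons] at *
        omega
      · left; exact ⟨_, rfl⟩
    · left; exact ⟨_, rfl⟩
  | true :: false :: false :: true :: true :: s =>
    simp only [kd]
    split_ifs
    · right
      simp only [Kind.len, List.length_cons]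
      omega
    · left; exact ⟨_, rfl⟩
  | true :: false :: true :: true :: b :: s =>
    simp only [kd]
    split_ifs with h1 h2
    · left; exact ⟨_, rfl⟩
    · left; exact ⟨_, rfl⟩
    · split
      · rename_i u hu
        split_ifs with h
        · right
          have h1 := par_len (un [] s).2
          have h2 := un_len _ [] s le_rfl
          rw [hu] at h1
          simp only [Kind.len, List.length_cons] at *
          omega
        · left; exact ⟨_, rfl⟩
      · left; exact ⟨_, rfl⟩
  | [true] => left; exact ⟨_, rfl⟩
  | [true, false] => left; exact ⟨_, rfl⟩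
  | [true, false, a] => left; cases a <;> exact ⟨_, rfl⟩
  | [true, false, false, true] => left; exact ⟨_, rfl⟩
  | [true, false, true, true] => left; exact ⟨_, rfl⟩
  | true :: false :: false :: false :: s => left; exact ⟨_, rfl⟩
  | true :: false :: false :: true :: false :: s => left; exact ⟨_, rfl⟩

variable {X : Oracle} {m : ℕ → ℕ}

/-- two data agree below a length -/
def Agree (l : ℕ) (D D' : List Bool → Cell) : Prop := ∀ s : List Bool, s.length < l → D' s = D s

theorem Agree.refl (l : ℕ) (D : List Bool → Cell) : Agree l D D := fun _ _ => rfl

theorem Agree.trans {l : ℕ} {D D' D'' : List Bool → Cell} (h : Agree l D D')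
    (h' : Agree l D' D'') : Agree l D D'' := fun s hs => (h' s hs).trans (h s hs)

theorem Agree.symm {l : ℕ} {D D' : List Bool → Cell} (h : Agree l D D') : Agree l D' D :=
  fun s hs => (h s hs).symm

theorem Agree.mono {l l' : ℕ} {D D' : List Bool → Cell} (hl : l ≤ l') (h : Agree l' D D') :
    Agree l D D' := fun s hs => h s (hs.trans_le hl)

theorem mt_congr {D D' : List Bool → Cell} {κ : Kind} (h : ∀ s : List Bool,
    s.length = κ.len → D' s = D s) : mt m D' κ ↔ mt m D κ := by
  cases κ with
  | fix b => exact Iff.rfl
  | R s => simp only [mt, h s rfl]
  | V w u => simp only [mt, h u rfl]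
  | C b w i u => simp only [mt, h u rfl]

theorem act_congr {k k' : List Bool → Prop} {κ : Kind} (h : ∀ s : List Bool,
    s.length = κ.len → (k' s ↔ k s)) : act k' κ ↔ act k κ := by
  cases κ with
  | fix b => exact Iff.rfl
  | R s => exact Iff.rfl
  | V w u => exact h u rfl
  | C b w i u => exact h u rfl

theorem Ok_congr {D D' : List Bool → Cell} {k k' : List Bool → Prop} (s : List Bool)
    (hD : ∀ u : List Bool, u.length < s.length → D' u = D u)
    (hk : ∀ u : List Bool, u.length < s.length → (k' u ↔ k u)) :
    Ok X m D' k' s = Ok X m D k s := by
  unfold Ok
  congr 1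
  rcases kd_len X m s with ⟨b, hb⟩ | h
  · rw [hb]
    rfl
  · rw [mt_congr fun u hu => hD u (by omega), act_congr fun u hu => hk u (by omega)]

theorem K_eq (X : Oracle) (m : ℕ → ℕ) (D : List Bool → Cell) (u : List Bool) :
    K X m D u ↔ Acc (Or X m D) u := by
  unfold K
  rw [WellFounded.fix_eq]
  refine Acc_congr fun s hs => ?_
  refine Ok_congr s (fun _ _ => rfl) fun u' hu' => ?_
  constructor
  · rintro ⟨-, h⟩
    exact h
  · intro h
    exact ⟨by omega, h⟩

theorem Or_true (D : List Bool → Cell) (s : List Bool) :
    Or X m D s = true ↔ act (K X m D) (kd X m s) ∧ mt m D (kd X m s) := by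
  unfold Or Ok
  simp

/-- values below a length depend on the data below it -/
theorem agree_all {l : ℕ} {D D' : List Bool → Cell} (h : Agree l D D') :
    (∀ u : List Bool, u.length ≤ l → (K X m D' u ↔ K X m D u)) ∧
      ∀ s : List Bool, s.length ≤ l → Or X m D' s = Or X m D s := by
  have key : ∀ n : ℕ, n ≤ l → ∀ u : List Bool, u.length = n → (K X m D' u ↔ K X m D u) := by
    intro n
    induction n using Nat.strong_induction_on with
    | _ n ih =>
      intro hn u hu
      rw [K_eq, K_eq]
      refine Acc_congr fun s hs => Ok_congr s (fun u' hu' => h u' (by omega)) fun u' hu' => ?_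
      exact ih u'.length (by omega) (by omega) u' rfl
  have h1 : ∀ u : List Bool, u.length ≤ l → (K X m D' u ↔ K X m D u) :=
    fun u hu => key _ hu u rfl
  exact ⟨h1, fun s hs => Ok_congr s (fun u hu => h u (by omega)) fun u hu => h1 u (by omega)⟩

/-! ### values at the strings of the construction -/

theorem kd_ruler1 (i : ℕ) (v : List Bool) :
    kd X m (List.replicate (i + 2) true ++ false :: false :: v) = .fix (decide (J v ≤ i)) := by
  rw [List.replicate_succ, List.replicate_succ, List.cons_append, List.cons_append]
  simp only [kd, par_rep]

theorem kd_ruler2 (i : ℕ) (u : List Bool) :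
    kd X m (List.replicate (i + 2) true ++ false :: true :: u) =
      .fix (decide (m u.length ≤ i)) := by
  rw [List.replicate_succ, List.replicate_succ, List.cons_append, List.cons_append]
  simp only [kd, par_rep]

theorem kd_V (w u : List Bool) :
    kd X m (true :: false :: true :: false :: app w (false ::
      (List.replicate (m u.length + 2) true ++ false :: true :: u))) = .V w u := by
  simp only [kd, un_app', par_rep, if_true]

theorem kd_C (b : Bool) (w u : List Bool) (i : ℕ) (hi : i < m u.length) :
    kd X m (true :: false :: true :: true :: b :: app w (false ::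
      (List.replicate (i + 2) true ++ false :: true :: u))) = .C b w i u := by
  have h1 : List.replicate (i + 2) true ++ false :: true :: u ≠ [] := by simp
  have h2 : List.replicate (i + 2) true ++ false :: true :: u ≠ [false] := by
    intro h
    have := congrArg List.length h
    simp only [List.length_append, List.length_replicate, List.length_cons,
      List.length_nil] at this
    omega
  simp only [kd, un_app', par_rep, h1, h2, if_false]
  rw [if_pos ⟨by omega, by omega⟩]
  rfl

theorem kd_R (w x : List Bool) (h : w.length = x.length) :
    kd X m (true :: false :: false :: true :: true :: app w (false :: x)) =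
      .R (app w (false :: x)) := by
  simp only [kd, un_app', h, if_true]

end ESY.Conv
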