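import Pool.Agent.Lib.MP_80aaf5_lc.Local

/-!
# Machines: prefix machines, the certificate verifiers, the reduction machine
-/

namespace ESY.Conv

open ESY

/-! ### pushing one bit first -/

/-- shift the targets of an instruction by one -/
def shift {k q : ℕ} : Instr k q → Instr k (q + 1)
  | .push i b n => .push i b n.succ
  | .pop i a b c => .pop i a.succ b.succ c.succ
  | .query i a b => .query i a.succ b.succ
  | .halt b => .halt b

/-- the machine that first pushes `b` on stack `0` and then behaves like `M` -/
def pre (b : Bool) (M : Machine) : Machine where
  k := M.k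
  q := M.q + 1
  code := Fin.cons (.push 0 b (Fin.succ 0)) (fun s => shift (M.code s))

/-- the configuration of `pre b M` that corresponds to a configuration of `M` -/
def emb (b : Bool) (M : Machine) (c : Cfg M) : Cfg (pre b M) := ⟨c.state.succ, c.stack⟩

theorem pre_code (b : Bool) (M : Machine) (s : Fin (M.q + 1)) :
    (pre b M).code s.succ = shift (M.code s) := rfl

theorem step_emb (O : Oracle) (b : Bool) (M : Machine) (c : Cfg M) :
    step O (pre b M) (emb b M c) = emb b M (step O M c) := by
  have hc : (pre b M).code (emb b M c).state = shift (M.code c.state) := rfl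
  unfold step
  rw [hc]
  cases h : M.code c.state with
  | push i b n => rfl
  | pop i a b d =>
    rcases hs : c.stack i with _ | ⟨_ | _, s⟩ <;> simp only [shift, emb, hs] <;> rfl
  | query i a b =>
    by_cases hO : O (c.stack i) = true
    · simp only [shift, emb, hO, if_true]
    · simp only [shift, emb, hO]
      rfl
  | halt b => rfl

theorem asked1_emb (b : Bool) (M : Machine) (c : Cfg M) :
    asked1 (pre b M) (emb b M c) = asked1 M c := by
  have hc : (pre b M).code (emb b M c).state = shift (M.code c.state) := rfl
  unfold asked1
  rw [hc]
  cases h : M.code c.state <;> rfl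

theorem iter_emb (O : Oracle) (b : Bool) (M : Machine) (t : ℕ) : ∀ c : Cfg M,
    (step O (pre b M))^[t] (emb b M c) = emb b M ((step O M)^[t] c) := by
  induction t with
  | zero => intro c; rfl
  | succ t ih =>
    intro c
    rw [Function.iterate_succ_apply, Function.iterate_succ_apply, step_emb, ih]

theorem asked_emb (O : Oracle) (b : Bool) (M : Machine) (t : ℕ) : ∀ c : Cfg M,
    asked O (pre b M) t (emb b M c) = asked O M t c := by
  induction t with
  | zero => intro c; rfl
  | succ t ih =>
    intro c
    simp only [asked]
    rw [asked1_emb, step_emb, ih]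

theorem upd_start {k : ℕ} (x w : List Bool) (b : Bool) :
    Function.update (fun i : Fin (k + 2) => if i = 0 then x else if i = 1 then w else []) 0
      (b :: (fun i : Fin (k + 2) => if i = 0 then x else if i = 1 then w else []) 0) =
    fun i : Fin (k + 2) => if i = 0 then b :: x else if i = 1 then w else [] := by
  funext i
  by_cases hi : i = 0
  · subst hi
    simp
  · simp [hi]

theorem step_pre_start (O : Oracle) (b : Bool) (M : Machine) (x w : List Bool) :
    step O (pre b M) (start (pre b M) x w) = emb b M (start M (b :: x) w) := by
  have hc : (pre b M).code (start (pre b M) x w).state =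
    .push 0 b (Fin.succ (0 : Fin (M.q + 1))) := rfl
  unfold step
  rw [hc]
  refine congrArg (Cfg.mk (M := pre b M) (Fin.succ (0 : Fin (M.q + 1)))) ?_
  exact upd_start (k := M.k) x w b

theorem accepts_pre (O : Oracle) (b : Bool) (M : Machine) (x w : List Bool) (t : ℕ) :
    AcceptsIn O (pre b M) x w (t + 1) ↔ AcceptsIn O M (b :: x) w t := by
  unfold AcceptsIn
  rw [Function.iterate_succ_apply, step_pre_start, iter_emb]
  show shift (M.code ((step O M)^[t] (start M (b :: x) w)).state) = _ ↔ _
  cases h : M.code ((step O M)^[t] (start M (b :: x) w)).state with
  | halt a =>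
    constructor
    · intro hh
      rw [Instr.halt.inj hh]
    · intro hh
      rw [Instr.halt.inj hh]
      rfl
  | push i a n => constructor <;> intro hh <;> cases hh
  | pop i a c d => constructor <;> intro hh <;> cases hh
  | query i a c => constructor <;> intro hh <;> cases hh

theorem asked_pre (O : Oracle) (b : Bool) (M : Machine) (x w : List Bool) (t : ℕ) :
    asked O (pre b M) (t + 1) (start (pre b M) x w) = asked O M t (start M (b :: x) w) := by
  simp only [asked]
  rw [step_pre_start, asked_emb]
  rfl

/-- the machine that first pushes `e` times `true` -/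
def trues (M : Machine) : ℕ → Machine
  | 0 => M
  | e + 1 => pre true (trues M e)

theorem accepts_trues (O : Oracle) (M : Machine) (w : List Bool) (t : ℕ) : ∀ (e : ℕ)
    (x : List Bool), AcceptsIn O (trues M e) x w (t + e) ↔
      AcceptsIn O M (List.replicate e true ++ x) w t := by
  intro e
  induction e with
  | zero => intro x; rfl
  | succ e ih =>
    intro x
    show AcceptsIn O (pre true (trues M e)) x w (t + e + 1) ↔ _
    rw [accepts_pre, ih, List.replicate_succ', List.append_assoc]
    rfl

theorem asked_trues (O : Oracle) (M : Machine) (w : List Bool) (t : ℕ) : ∀ (e : ℕ)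
    (x : List Bool), asked O (trues M e) (t + e) (start (trues M e) x w) =
      asked O M t (start M (List.replicate e true ++ x) w) := by
  intro e
  induction e with
  | zero => intro x; rfl
  | succ e ih =>
    intro x
    show asked O (pre true (trues M e)) (t + e + 1) (start (pre true (trues M e)) x w) = _
    rw [asked_pre, ih, List.replicate_succ', List.append_assoc]
    rfl

/-- the machine that runs `M` on `1^e 0 x` -/
def pr (M : Machine) (e : ℕ) : Machine := pre false (trues M e)

theorem accepts_pr (O : Oracle) (M : Machine) (x w : List Bool) (t e : ℕ) :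
    AcceptsIn O (pr M e) x w (t + e + 1) ↔
      AcceptsIn O M (List.replicate e true ++ false :: x) w t := by
  unfold pr
  rw [accepts_pre, accepts_trues]

theorem asked_pr (O : Oracle) (M : Machine) (x w : List Bool) (t e : ℕ) :
    asked O (pr M e) (t + e + 1) (start (pr M e) x w) =
      asked O M t (start M (List.replicate e true ++ false :: x) w) := by
  unfold pr
  rw [asked_pre, asked_trues]

end ESY.Conv
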