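import Pool.Agent.Lib.MP_80aaf5_lc.helper83.Mach

/-!
# The reduction machine
-/

namespace ESY.Conv

open ESY

/-- the part of a list of queries to `join O S` that goes to `S` -/
def sep (l : List (List Bool)) : List (List Bool) :=
  l.filterMap fun s => match s with
    | true :: r => some r
    | _ => none

/-- put the bits of the first list, each preceded by `true`, on top of the second list -/
def app : List Bool → List Bool → List Bool
  | [], a => a
  | b :: w, a => app w (true :: b :: a)

/-- the machine with two stacks and this code -/
def mk2 {q : ℕ} (code : Fin (q + 1) → Instr 2 (q + 1)) : Machine where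
  k := 0
  q := q
  code := code

/-- configurations of a machine with two stacks -/
def cf {q : ℕ} (code : Fin (q + 1) → Instr 2 (q + 1)) (s : Fin (q + 1)) (a b : List Bool) :
    Cfg (mk2 code) := ⟨s, ![a, b]⟩

theorem u0 (a b e : List Bool) :
    Function.update (![a, b] : Fin 2 → List Bool) 0 e = ![e, b] := by
  funext i; fin_cases i <;> rfl
theorem u1 (a b e : List Bool) :
    Function.update (![a, b] : Fin 2 → List Bool) 1 e = ![a, e] := by
  funext i; fin_cases i <;> rfl

/-- reachability in `t` steps, with the questions asked to the second oracle -/
def Rch (O : Oracle) {M : Machine} (t : ℕ) (c c' : Cfg M) (q : List (List Bool)) : Prop :=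
  (step O M)^[t] c = c' ∧ sep (asked O M t c) = q

variable {O : Oracle}

theorem asked_add (O : Oracle) (M : Machine) (t t' : ℕ) : ∀ c : Cfg M,
    asked O M (t + t') c = asked O M t c ++ asked O M t' ((step O M)^[t] c) := by
  induction t with
  | zero => intro c; simp [asked]
  | succ t ih =>
    intro c
    have e : t + 1 + t' = (t + t') + 1 := by omega
    rw [e]
    simp only [asked]
    rw [ih, List.append_assoc, Function.iterate_succ_apply]

theorem Rch.trans {M : Machine} {t t' : ℕ} {c c' c'' : Cfg M} {q q' : List (List Bool)}
    (h : Rch O t c c' q) (h' : Rch O t' c' c'' q') : Rch O (t + t') c c'' (q ++ q') := by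
  refine ⟨?_, ?_⟩
  · rw [Nat.add_comm, Function.iterate_add_apply, h.1, h'.1]
  · rw [asked_add, h.1]
    unfold sep
    rw [List.filterMap_append]
    exact congrArg₂ (· ++ ·) h.2 h'.2

theorem Rch.one {M : Machine} {c c' : Cfg M} (h : step O M c = c') (hq : asked1 M c = []) :
    Rch O 1 c c' [] := by
  refine ⟨h, ?_⟩
  simp [asked, hq, sep]

theorem Rch.refl {M : Machine} (c : Cfg M) : Rch O 0 c c [] := ⟨rfl, rfl⟩

/-! ### single steps of a machine -/

section steps
variable {M : Machine} {c : Cfg M} {i : Fin (M.k + 2)} {b : Bool} {n n' n'' : Fin (M.q + 1)}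

theorem step_push (h : M.code c.state = .push i b n) :
    step O M c = ⟨n, Function.update c.stack i (b :: c.stack i)⟩ := by
  unfold step; rw [h]

theorem step_pop_nil (h : M.code c.state = .pop i n n' n'') (hs : c.stack i = []) :
    step O M c = ⟨n, c.stack⟩ := by
  unfold step; rw [h]; simp only [hs]

theorem step_pop_false {s : List Bool} (h : M.code c.state = .pop i n n' n'')
    (hs : c.stack i = false :: s) : step O M c = ⟨n', Function.update c.stack i s⟩ := by
  unfold step; rw [h]; simp only [hs]

theorem step_pop_true {s : List Bool} (h : M.code c.state = .pop i n n' n'')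
    (hs : c.stack i = true :: s) : step O M c = ⟨n'', Function.update c.stack i s⟩ := by
  unfold step; rw [h]; simp only [hs]

theorem step_query_yes (h : M.code c.state = .query i n n') (hs : O (c.stack i) = true) :
    step O M c = ⟨n', c.stack⟩ := by
  unfold step; rw [h]; simp only [hs, if_true]

theorem step_query_no (h : M.code c.state = .query i n n') (hs : O (c.stack i) = false) :
    step O M c = ⟨n, c.stack⟩ := by
  unfold step; rw [h]; simp [hs]

theorem step_halt (h : M.code c.state = .halt b) : step O M c = c := by
  unfold step; rw [h]

theorem asked1_push (h : M.code c.state = .push i b n) : asked1 M c = [] := by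
  unfold asked1; rw [h]

theorem asked1_pop (h : M.code c.state = .pop i n n' n'') : asked1 M c = [] := by
  unfold asked1; rw [h]

theorem asked1_query (h : M.code c.state = .query i n n') : asked1 M c = [c.stack i] := by
  unfold asked1; rw [h]

theorem asked1_halt (h : M.code c.state = .halt b) : asked1 M c = [] := by
  unfold asked1; rw [h]

end steps

section red
variable {q : ℕ} {code : Fin (q + 1) → Instr 2 (q + 1)} {s t t' t'' : Fin (q + 1)} {b : Bool}

theorem push0 (h : code s = .push 0 b t) (a c : List Bool) :
    Rch O 1 (cf code s a c) (cf code t (b :: a) c) [] :=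
  Rch.one ((step_push (c := cf code s a c) h).trans
    (congrArg (Cfg.mk (M := mk2 code) t) (u0 a c (b :: a)))) (asked1_push (c := cf code s a c) h)

theorem push1 (h : code s = .push 1 b t) (a c : List Bool) :
    Rch O 1 (cf code s a c) (cf code t a (b :: c)) [] :=
  Rch.one ((step_push (c := cf code s a c) h).trans
    (congrArg (Cfg.mk (M := mk2 code) t) (u1 a c (b :: c)))) (asked1_push (c := cf code s a c) h)

theorem pop0 (h : code s = .pop 0 t t t) (b : Bool) (a c : List Bool) :
    Rch O 1 (cf code s (b :: a) c) (cf code t a c) [] := by
  cases b
  · exact Rch.one ((step_pop_false (c := cf code s (false :: a) c) h rfl).trans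
      (congrArg (Cfg.mk (M := mk2 code) t) (u0 _ c a))) (asked1_pop (c := cf code s (false :: a) c) h)
  · exact Rch.one ((step_pop_true (c := cf code s (true :: a) c) h rfl).trans
      (congrArg (Cfg.mk (M := mk2 code) t) (u0 _ c a))) (asked1_pop (c := cf code s (true :: a) c) h)

theorem pop1_nil (h : code s = .pop 1 t t' t'') (a : List Bool) :
    Rch O 1 (cf code s a []) (cf code t a []) [] :=
  Rch.one (step_pop_nil (c := cf code s a []) h rfl) (asked1_pop (c := cf code s a []) h)

theorem pop1_false (h : code s = .pop 1 t t' t'') (a c : List Bool) :
    Rch O 1 (cf code s a (false :: c)) (cf code t' a c) [] :=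
  Rch.one ((step_pop_false (c := cf code s a (false :: c)) h rfl).trans
      (congrArg (Cfg.mk (M := mk2 code) t') (u1 a _ c))) (asked1_pop (c := cf code s a (false :: c)) h)

theorem pop1_true (h : code s = .pop 1 t t' t'') (a c : List Bool) :
    Rch O 1 (cf code s a (true :: c)) (cf code t'' a c) [] :=
  Rch.one ((step_pop_true (c := cf code s a (true :: c)) h rfl).trans
      (congrArg (Cfg.mk (M := mk2 code) t'') (u1 a _ c))) (asked1_pop (c := cf code s a (true :: c)) h)

/-- a question to the first oracle -/
theorem query_fst_yes (h : code s = .query 0 t t') (a c : List Bool)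
    (hO : O (false :: a) = true) :
    Rch O 1 (cf code s (false :: a) c) (cf code t' (false :: a) c) [] := by
  refine ⟨step_query_yes (c := cf code s (false :: a) c) h hO, ?_⟩
  simp only [asked, asked1_query (c := cf code s (false :: a) c) h]
  rfl

theorem query_fst_no (h : code s = .query 0 t t') (a c : List Bool)
    (hO : O (false :: a) = false) :
    Rch O 1 (cf code s (false :: a) c) (cf code t (false :: a) c) [] := by
  refine ⟨step_query_no (c := cf code s (false :: a) c) h hO, ?_⟩
  simp only [asked, asked1_query (c := cf code s (false :: a) c) h]
  rfl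

theorem query_snd_yes (h : code s = .query 0 t t') (a c : List Bool)
    (hO : O (true :: a) = true) :
    Rch O 1 (cf code s (true :: a) c) (cf code t' (true :: a) c) [a] := by
  refine ⟨step_query_yes (c := cf code s (true :: a) c) h hO, ?_⟩
  simp only [asked, asked1_query (c := cf code s (true :: a) c) h]
  rfl

theorem query_snd_no (h : code s = .query 0 t t') (a c : List Bool)
    (hO : O (true :: a) = false) :
    Rch O 1 (cf code s (true :: a) c) (cf code t (true :: a) c) [a] := by
  refine ⟨step_query_no (c := cf code s (true :: a) c) h hO, ?_⟩
  simp only [asked, asked1_query (c := cf code s (true :: a) c) h]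
  rfl

end red

theorem stay {q : ℕ} {code : Fin (q + 1) → Instr 2 (q + 1)} {s : Fin (q + 1)} {b : Bool}
    (h : code s = .halt b) (a c : List Bool) (t : ℕ) :
    Rch O t (cf code s a c) (cf code s a c) [] := by
  induction t with
  | zero => exact ⟨rfl, rfl⟩
  | succ t ih =>
    have h1 : Rch O 1 (cf code s a c) (cf code s a c) [] :=
      Rch.one (step_halt (c := cf code s a c) h) (asked1_halt (c := cf code s a c) h)
    rw [Nat.add_comm]
    exact h1.trans ih

theorem start_mk2 {q : ℕ} (code : Fin (q + 1) → Instr 2 (q + 1)) (x w : List Bool) :
    start (mk2 code) x w = cf code 0 x w := by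
  unfold start cf
  congr 1
  funext i
  have h : ∀ i : Fin 2, (if i = 0 then x else if i = 1 then w else []) = ![x, w] i := by
    intro i
    fin_cases i <;> rfl
  exact h i

/-- acceptance is monotone in the time bound -/
theorem accepts_mono (O : Oracle) (M : Machine) (x w : List Bool) {t t' : ℕ} (h : t ≤ t')
    (ha : AcceptsIn O M x w t) : AcceptsIn O M x w t' := by
  obtain ⟨d, rfl⟩ := Nat.exists_eq_add_of_le h
  unfold AcceptsIn at *
  have e : ∀ d, (step O M)^[t + d] (start M x w) = (step O M)^[t] (start M x w) := by
    intro d
    induction d with
    | zero => rfl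
    | succ d ih =>
      rw [← Nat.add_assoc, Function.iterate_succ_apply', ih]
      exact step_halt ha
  rw [e]
  exact ha

/-! ### the certificate verifiers -/

/-- push the bits of `w` with marks on `x`, then a tag, and ask -/
def vmCode (a b : Bool) : Fin 13 → Instr 2 13 := ![
    .push 0 false 1,     -- 0
    .pop 1 5 2 3,        -- 1
    .push 0 false 4,     -- 2
    .push 0 true 4,      -- 3
    .push 0 true 1,      -- 4
    .push 0 b 6,         -- 5
    .push 0 true 7,      -- 6
    .push 0 a 8,         -- 7
    .push 0 false 9,     -- 8
    .push 0 true 10,     -- 9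
    .query 0 12 11,      -- 10
    .halt true,          -- 11
    .halt false]         -- 12

theorem vm_loop (a b : Bool) : ∀ w x : List Bool,
    (step O (mk2 (vmCode a b)))^[3 * w.length + 1] (cf (vmCode a b) 1 x w) =
      cf (vmCode a b) 5 (app w x) [] := by
  intro w
  induction w with
  | nil => intro x; exact (pop1_nil (code := vmCode a b) (s := 1) (t' := 2) (t'' := 3) rfl x).1
  | cons d w ih =>
    intro x
    have h2 := ih (true :: d :: x)
    have e : 3 * (d :: w).length + 1 = (3 * w.length + 1) + (1 + 1 + 1) := by
      simp only [List.length_cons]; ring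
    rw [e, Function.iterate_add_apply]
    cases d
    · rw [(((pop1_false (code := vmCode a b) (s := 1) (t := 5) (t' := 2) (t'' := 3) rfl x w).trans
        (push0 (s := 2) (t := 4) (b := false) rfl _ _)).trans
        (push0 (s := 4) (t := 1) (b := true) rfl _ _)).1]
      exact h2
    · rw [(((pop1_true (code := vmCode a b) (s := 1) (t := 5) (t' := 2) (t'' := 3) rfl x w).trans
        (push0 (s := 3) (t := 4) (b := true) rfl _ _)).trans
        (push0 (s := 4) (t := 1) (b := true) rfl _ _)).1]
      exact h2

theorem vm_accepts_of_le (O : Oracle) (a b : Bool) (x w : List Bool) (T : ℕ)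
    (hT : 3 * w.length + 8 ≤ T) : AcceptsIn O (mk2 (vmCode a b)) x w T ↔
      O (true :: false :: a :: true :: b :: app w (false :: x)) = true := by
  obtain ⟨T', rfl⟩ : ∃ T', T = T' + 1 + (1 + 1 + 1 + 1 + 1) + (3 * w.length + 1) + 1 :=
    ⟨T - (6 + (3 * w.length + 1) + 1), by omega⟩
  unfold AcceptsIn
  rw [start_mk2, Function.iterate_add_apply, Function.iterate_add_apply,
    (push0 (code := vmCode a b) (s := 0) (t := 1) (b := false) rfl _ _).1, vm_loop,
    Function.iterate_add_apply,
    (((((push0 (code := vmCode a b) (s := 5) (t := 6) (b := b) rfl _ _).trans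
      (push0 (s := 6) (t := 7) (b := true) rfl _ _)).trans
      (push0 (s := 7) (t := 8) (b := a) rfl _ _)).trans
      (push0 (s := 8) (t := 9) (b := false) rfl _ _)).trans
      (push0 (s := 9) (t := 10) (b := true) rfl _ _)).1, Function.iterate_succ_apply]
  by_cases h : O (true :: false :: a :: true :: b :: app w (false :: x)) = true
  · have e : step O (mk2 (vmCode a b)) (cf (vmCode a b) 10
        (true :: false :: a :: true :: b :: app w (false :: x)) []) = cf (vmCode a b) 11
        (true :: false :: a :: true :: b :: app w (false :: x)) [] :=
      step_query_yes (M := mk2 (vmCode a b)) (c := cf (vmCode a b) 10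
        (true :: false :: a :: true :: b :: app w (false :: x)) []) (i := (0 : Fin 2))
        (n := (12 : Fin 13)) (n' := (11 : Fin 13)) rfl h
    rw [e, (stay (code := vmCode a b) (s := 11) (b := true) rfl _ _ T').1]
    exact ⟨fun _ => h, fun _ => rfl⟩
  · have h' : O (true :: false :: a :: true :: b :: app w (false :: x)) = false := by
      simpa using h
    have e : step O (mk2 (vmCode a b)) (cf (vmCode a b) 10
        (true :: false :: a :: true :: b :: app w (false :: x)) []) = cf (vmCode a b) 12
        (true :: false :: a :: true :: b :: app w (false :: x)) [] :=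
      step_query_no (M := mk2 (vmCode a b)) (c := cf (vmCode a b) 10
        (true :: false :: a :: true :: b :: app w (false :: x)) []) (i := (0 : Fin 2))
        (n := (12 : Fin 13)) (n' := (11 : Fin 13)) rfl h'
    rw [e, (stay (code := vmCode a b) (s := 12) (b := false) rfl _ _ T').1]
    exact ⟨fun hh => absurd (Instr.halt.inj hh) (by decide), fun hh => absurd hh h⟩

theorem vm_sound (O : Oracle) (a b : Bool) (x w : List Bool) (T : ℕ)
    (h : AcceptsIn O (mk2 (vmCode a b)) x w T) :
    O (true :: false :: a :: true :: b :: app w (false :: x)) = true :=
  (vm_accepts_of_le O a b x w (max T (3 * w.length + 8)) (le_max_right _ _)).1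
    (accepts_mono O _ x w (le_max_left _ _) h)

/-- the code of the reduction machine -/
def redCode : Fin 36 → Instr 2 36 := ![
    .push 0 false 1,     -- 0
    .push 0 false 2,     -- 1
    .push 0 true 3,      -- 2
    .push 0 true 4,      -- 3
    .push 0 false 5,     -- 4
    .query 0 6 8,        -- 5
    .pop 0 7 7 7,        -- 6
    .push 0 true 4,      -- 7
    .pop 0 9 9 9,        -- 8
    .push 0 true 10,     -- 9
    .push 0 false 11,    -- 10
    .push 0 true 12,     -- 11
    .push 0 true 13,     -- 12
    .push 0 false 14,    -- 13
    .query 0 15 22,      -- 14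
    .pop 0 16 16 16,     -- 15
    .push 0 true 17,     -- 16
    .query 0 18 19,      -- 17
    .push 1 false 20,    -- 18
    .push 1 true 20,     -- 19
    .pop 0 21 21 21,     -- 20
    .push 0 true 13,     -- 21
    .pop 0 23 23 23,     -- 22
    .push 0 false 24,    -- 23
    .pop 1 28 25 26,     -- 24
    .push 0 false 27,    -- 25
    .push 0 true 27,     -- 26
    .push 0 true 24,     -- 27
    .push 0 false 29,    -- 28
    .push 0 true 30,     -- 29
    .push 0 false 31,    -- 30
    .push 0 true 32,     -- 31
    .push 0 false 33,    -- 32
    .query 0 35 34,      -- 33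
    .halt true,          -- 34
    .halt false]         -- 35

/-- the reduction machine -/
def red : Machine := mk2 redCode

/-- the first loop: pad until the oracle says that it is enough -/
theorem loop1 (r c : List Bool) (J : ℕ)
    (hlt : ∀ i < J, O (false :: (List.replicate (i + 2) true ++ r)) = false)
    (heq : O (false :: (List.replicate (J + 2) true ++ r)) = true) :
    ∀ d i : ℕ, i + d = J → Rch O (4 * d + 3) (cf redCode 4 (List.replicate (i + 2) true ++ r) c)
      (cf redCode 9 (List.replicate (J + 2) true ++ r) c) [] := by
  intro d
  induction d with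
  | zero =>
    intro i hi
    obtain rfl : i = J := by omega
    exact ((push0 (code := redCode) (s := 4) (t := 5) rfl _ _).trans
      (query_fst_yes (code := redCode) (s := 5) (t' := 8) (t := 6) rfl _ _ heq)).trans
      (pop0 (code := redCode) (s := 8) (t := 9) rfl _ _ _)
  | succ d ih =>
    intro i hi
    have h1 := (((push0 (code := redCode) (O := O) (s := 4) (t := 5) (b := false) rfl
      (List.replicate (i + 2) true ++ r) c).trans
      (query_fst_no (code := redCode) (s := 5) (t' := 8) (t := 6) rfl _ _ (hlt i (by omega)))).trans
      (pop0 (code := redCode) (s := 6) (t := 7) rfl _ _ _)).trans (push0 (code := redCode) (s := 7) (t := 4) (b := true) rfl _ _)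
    have h2 := h1.trans (ih (i + 1) (by omega))
    have e : 1 + 1 + 1 + 1 + (4 * d + 3) = 4 * (d + 1) + 3 := by ring
    rw [e] at h2
    exact h2

/-- the answers of the second oracle, last one first -/
def ans (S : List Bool → Bool) (r : List Bool) : ℕ → List Bool
  | 0 => []
  | i + 1 => S (List.replicate (i + 2) true ++ r) :: ans S r i

/-- the questions asked to the second oracle -/
def qst (r : List Bool) (m : ℕ) : List (List Bool) :=
  (List.range m).map fun i => List.replicate (i + 2) true ++ r

/-- the second loop: ask for the bits -/
theorem loop2 (r : List Bool) (m : ℕ)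
    (hlt : ∀ i < m, O (false :: (List.replicate (i + 2) true ++ r)) = false)
    (heq : O (false :: (List.replicate (m + 2) true ++ r)) = true) :
    ∀ d i : ℕ, i + d = m → Rch O (8 * d + 3)
      (cf redCode 13 (List.replicate (i + 2) true ++ r) (ans (fun a => O (true :: a)) r i))
      (cf redCode 23 (List.replicate (m + 2) true ++ r) (ans (fun a => O (true :: a)) r m))
      ((List.range' i d).map fun i => List.replicate (i + 2) true ++ r) := by
  intro d
  induction d with
  | zero =>
    intro i hi
    obtain rfl : i = m := by omega
    exact ((push0 (code := redCode) (s := 13) (t := 14) rfl _ _).trans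
      (query_fst_yes (code := redCode) (s := 14) (t' := 22) (t := 15) rfl _ _ heq)).trans
      (pop0 (code := redCode) (s := 22) (t := 23) rfl _ _ _)
  | succ d ih =>
    intro i hi
    have h1 := (((push0 (code := redCode) (O := O) (s := 13) (t := 14) (b := false) rfl
      (List.replicate (i + 2) true ++ r) (ans (fun a => O (true :: a)) r i)).trans
      (query_fst_no (code := redCode) (s := 14) (t' := 22) (t := 15) rfl _ _ (hlt i (by omega)))).trans
      (pop0 (code := redCode) (s := 15) (t := 16) rfl _ _ _)).trans (push0 (code := redCode) (s := 16) (t := 17) (b := true) rfl _ _)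
    have h3 : Rch O 2
        (cf redCode 17 (true :: (List.replicate (i + 2) true ++ r)) (ans (fun a => O (true :: a)) r i))
        (cf redCode 20 (true :: (List.replicate (i + 2) true ++ r))
          (ans (fun a => O (true :: a)) r (i + 1))) [List.replicate (i + 2) true ++ r] := by
      by_cases hq : O (true :: (List.replicate (i + 2) true ++ r)) = true
      · have := (query_snd_yes (code := redCode) (s := 17) (t' := 19) (t := 18) rfl _
          (ans (fun a => O (true :: a)) r i) hq).trans
          (push1 (code := redCode) (s := 19) (t := 20) (b := true) rfl _ _)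
        have e1 : ans (fun a => O (true :: a)) r (i + 1) =
            true :: ans (fun a => O (true :: a)) r i := congrArg (· :: _) hq
        rw [e1]
        exact this
      · have hq' : O (true :: (List.replicate (i + 2) true ++ r)) = false := by
          simpa using hq
        have := (query_snd_no (code := redCode) (s := 17) (t' := 19) (t := 18) rfl _
          (ans (fun a => O (true :: a)) r i) hq').trans
          (push1 (code := redCode) (s := 18) (t := 20) (b := false) rfl _ _)
        have e1 : ans (fun a => O (true :: a)) r (i + 1) =
            false :: ans (fun a => O (true :: a)) r i := congrArg (· :: _) hq'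
        rw [e1]
        exact this
    have h4 := ((h1.trans h3).trans (pop0 (code := redCode) (s := 20) (t := 21) rfl _ _ _)).trans
      (push0 (code := redCode) (s := 21) (t := 13) (b := true) rfl _ _)
    have h2 := h4.trans (ih (i + 1) (by omega))
    have e : 1 + 1 + 1 + 1 + 2 + 1 + 1 + (8 * d + 3) = 8 * (d + 1) + 3 := by ring
    rw [e] at h2
    exact h2

/-- the third loop: move the bits on top of stack 0 -/
theorem loop3 : ∀ w a : List Bool, Rch O (3 * w.length + 1) (cf redCode 24 a w) (cf redCode 28 (app w a) []) [] := by
  intro w
  induction w with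
  | nil => intro a; exact pop1_nil (code := redCode) (s := 24) (t' := 25) (t'' := 26) rfl a
  | cons b w ih =>
    intro a
    have h2 := ih (true :: b :: a)
    have e : 1 + 1 + 1 + (3 * w.length + 1) = 3 * (b :: w).length + 1 := by
      simp only [List.length_cons]; ring
    rw [← e]
    cases b
    · exact (((pop1_false (code := redCode) (s := 24) (t := 28) (t' := 25) (t'' := 26) rfl a w).trans
        (push0 (code := redCode) (s := 25) (t := 27) (b := false) rfl _ _)).trans
        (push0 (code := redCode) (s := 27) (t := 24) (b := true) rfl _ _)).trans h2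
    · exact (((pop1_true (code := redCode) (s := 24) (t := 28) (t' := 25) (t'' := 26) rfl a w).trans
        (push0 (code := redCode) (s := 26) (t := 27) (b := true) rfl _ _)).trans
        (push0 (code := redCode) (s := 27) (t := 24) (b := true) rfl _ _)).trans h2

theorem ans_length (S : List Bool → Bool) (r : List Bool) (m : ℕ) : (ans S r m).length = m := by
  induction m with
  | zero => rfl
  | succ m ih => simp [ans, ih]

/-- the result of the computation before the last question -/
theorem red_run (v : List Bool) (J m : ℕ)
    (h1lt : ∀ i < J, O (false :: (List.replicate (i + 2) true ++ false :: false :: v)) = false)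
    (h1eq : O (false :: (List.replicate (J + 2) true ++ false :: false :: v)) = true)
    (u : List Bool) (hu : u = List.replicate (J + 2) true ++ false :: false :: v)
    (h2lt : ∀ i < m, O (false :: (List.replicate (i + 2) true ++ false :: true :: u)) = false)
    (h2eq : O (false :: (List.replicate (m + 2) true ++ false :: true :: u)) = true) :
    Rch O (4 * J + 11 * m + 21) (start red v [])
      (cf redCode 33 (false :: true :: false :: true :: false ::
        app (ans (fun a => O (true :: a)) (false :: true :: u) m)
          (false :: (List.replicate (m + 2) true ++ false :: true :: u))) [])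
      (qst (false :: true :: u) m) := by
  have e0 : start red v [] = cf redCode 0 v [] := start_mk2 redCode v []
  rw [e0]
  have a1 := (((push0 (code := redCode) (O := O) (s := 0) (t := 1) (b := false) rfl v []).trans
    (push0 (code := redCode) (s := 1) (t := 2) (b := false) rfl _ _)).trans
    (push0 (code := redCode) (s := 2) (t := 3) (b := true) rfl _ _)).trans
    (push0 (code := redCode) (s := 3) (t := 4) (b := true) rfl _ _)
  have a2 := a1.trans (loop1 (O := O) (false :: false :: v) [] J h1lt h1eq J 0 (by omega))
  rw [← hu] at a2
  have a3 := (((a2.trans (push0 (code := redCode) (s := 9) (t := 10) (b := true) rfl _ _)).trans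
    (push0 (code := redCode) (s := 10) (t := 11) (b := false) rfl _ _)).trans
    (push0 (code := redCode) (s := 11) (t := 12) (b := true) rfl _ _)).trans
    (push0 (code := redCode) (s := 12) (t := 13) (b := true) rfl _ _)
  have a4 := a3.trans (loop2 (O := O) (false :: true :: u) m h2lt h2eq m 0 (by omega))
  have a5 := (a4.trans (push0 (code := redCode) (s := 23) (t := 24) (b := false) rfl _ _)).trans (loop3 _ _)
  have a6 := ((((a5.trans (push0 (code := redCode) (s := 28) (t := 29) (b := false) rfl _ _)).trans
    (push0 (code := redCode) (s := 29) (t := 30) (b := true) rfl _ _)).trans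
    (push0 (code := redCode) (s := 30) (t := 31) (b := false) rfl _ _)).trans
    (push0 (code := redCode) (s := 31) (t := 32) (b := true) rfl _ _)).trans
    (push0 (code := redCode) (s := 32) (t := 33) (b := false) rfl _ _)
  rw [ans_length] at a6
  have e : 1 + 1 + 1 + 1 + (4 * J + 3) + 1 + 1 + 1 + 1 + (8 * m + 3) + 1 + (3 * m + 1) + 1 + 1 + 1
    + 1 + 1 = 4 * J + 11 * m + 21 := by ring
  rw [e] at a6
  simp only [List.append_nil, List.nil_append] at a6
  unfold qst
  rw [List.range_eq_range']
  exact a6

/-- Correctness of the reduction machine. -/
theorem red_correct (v : List Bool) (J m : ℕ)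
    (h1lt : ∀ i < J, O (false :: (List.replicate (i + 2) true ++ false :: false :: v)) = false)
    (h1eq : O (false :: (List.replicate (J + 2) true ++ false :: false :: v)) = true)
    (u : List Bool) (hu : u = List.replicate (J + 2) true ++ false :: false :: v)
    (h2lt : ∀ i < m, O (false :: (List.replicate (i + 2) true ++ false :: true :: u)) = false)
    (h2eq : O (false :: (List.replicate (m + 2) true ++ false :: true :: u)) = true)
    (T : ℕ) (hT : 4 * J + 11 * m + 22 ≤ T) :
    (AcceptsIn O red v [] T ↔ O (false :: true :: false :: true :: false ::
        app (ans (fun a => O (true :: a)) (false :: true :: u) m)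
          (false :: (List.replicate (m + 2) true ++ false :: true :: u))) = true) ∧
    sep (asked O red T (start red v [])) = qst (false :: true :: u) m := by
  have h := red_run v J m h1lt h1eq u hu h2lt h2eq
  obtain ⟨T', rfl⟩ : ∃ T', T = 4 * J + 11 * m + 21 + 1 + T' :=
    ⟨T - (4 * J + 11 * m + 21 + 1), by omega⟩
  unfold AcceptsIn
  by_cases hq : O (false :: true :: false :: true :: false ::
        app (ans (fun a => O (true :: a)) (false :: true :: u) m)
          (false :: (List.replicate (m + 2) true ++ false :: true :: u))) = true
  · have h' := (h.trans (query_fst_yes (code := redCode) (s := 33) (t' := 34) (t := 35) rfl _ _ hq)).trans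
      (stay (s := 34) (b := true) rfl _ _ T')
    rw [h'.1]
    refine ⟨⟨fun _ => hq, fun _ => rfl⟩, ?_⟩
    rw [h'.2]
    simp
  · have hq' := (Bool.not_eq_true _).mp hq
    have h' := (h.trans (query_fst_no (code := redCode) (s := 33) (t' := 34) (t := 35) rfl _ _ hq')).trans
      (stay (s := 35) (b := false) rfl _ _ T')
    rw [h'.1]
    refine ⟨⟨fun hh => ?_, fun hh => absurd hh hq⟩, ?_⟩
    · exact absurd (Instr.halt.inj hh) (by decide)
    · rw [h'.2]
      simp

end ESY.Conv
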